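import Pool.Agent.H84.QC.MAIN

/-!
MP_9aa1ff_an, Q1: `QC_θ(E) = 0` for every `0 ≤ θ < 1` and every set `E ⊂ ℝⁿ` with
`dim_A^θ(E) < 1` (positive answer; `θ = 0` is the upper box-counting dimension).
-/

namespace Pool.Agent.Results.MP_9aa1ff_an.BelowOne

/-- Let `n ≥ 2`, `0 ≤ θ < 1` and let `E` be any subset of `ℝⁿ` with `dim_A^θ(E) < 1`.  Then the
global quasiconformal Assouad spectrum dimension `QC_θ(E)` is zero. -/
theorem result (n : ℕ) (_hn : 2 ≤ n) (θ : ℝ) (hθ : 0 ≤ θ) (hθ1 : θ < 1)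
    (E : Set (EuclideanSpace ℝ (Fin n))) (hE : QCA.dimA θ E < 1) : QCA.qcdim θ E = 0 :=
  QCA.qcdim_eq_zero hθ hθ1 hE

end Pool.Agent.Results.MP_9aa1ff_an.BelowOne
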